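import Pool.Agent.Helper40.Nm.Goals

/-! The homomorphism `D`. -/

open CategoryTheory AlgebraicGeometry Limits TensorProduct

namespace Pool.Agent.Helper6.Nm

open Pool.Agent.Helper40.Nm

section Ord

variable {R M : Type} [CommRing R] [IsDomain R] [IsDiscreteValuationRing R] [Field M]
  [Algebra R M] [IsFractionRing R M]

/-- `μ` has order `m`. -/
def Ord (R : Type) {M : Type} [CommRing R] [Field M] [Algebra R M] (μ : M) (m : ℤ) : Prop :=
  ∃ (u : Rˣ) (π : R), Irreducible π ∧ μ = algebraMap R M u * algebraMap R M π ^ m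

theorem am_ne {π : R} (h : Irreducible π) : algebraMap R M π ≠ 0 := by
  rw [Ne, IsFractionRing.to_map_eq_zero_iff]
  exact h.ne_zero

theorem am_unit (u : Rˣ) : algebraMap R M u ≠ 0 := by
  rw [Ne, IsFractionRing.to_map_eq_zero_iff]
  exact u.ne_zero

theorem am_zpow (u : Rˣ) (m : ℤ) : algebraMap R M ((u ^ m : Rˣ) : R) = algebraMap R M u ^ m := by
  have h1 : ∀ v : Rˣ, algebraMap R M v = ((Units.map (algebraMap R M : R →* M) v : Mˣ) : M) :=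
    fun v => rfl
  rw [h1, h1, map_zpow, Units.val_zpow_eq_zpow_val]

/-- Independence of the uniformiser. -/
theorem Ord.of {μ : M} {m : ℤ} (h : Ord R μ m) {ϖ : R} (hϖ : Irreducible ϖ) :
    ∃ u : Rˣ, μ = algebraMap R M u * algebraMap R M ϖ ^ m := by
  obtain ⟨u, π, hπ, rfl⟩ := h
  obtain ⟨v, hv⟩ := IsDiscreteValuationRing.associated_of_irreducible R hϖ hπ
  refine ⟨u * v ^ m, ?_⟩
  rw [← hv, map_mul, mul_zpow, Units.val_mul, map_mul, am_zpow]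
  ring

theorem Ord.ne_zero {μ : M} {m : ℤ} (h : Ord R μ m) : μ ≠ 0 := by
  obtain ⟨u, π, hπ, rfl⟩ := h
  exact mul_ne_zero (am_unit u) (zpow_ne_zero _ (am_ne hπ))

theorem Ord.mul {μ ν : M} {m n : ℤ} (h : Ord R μ m) (k : Ord R ν n) :
    Ord R (μ * ν) (m + n) := by
  obtain ⟨ϖ, hϖ⟩ := IsDiscreteValuationRing.exists_irreducible R
  obtain ⟨u, rfl⟩ := h.of hϖ
  obtain ⟨v, rfl⟩ := k.of hϖ
  refine ⟨u * v, ϖ, hϖ, ?_⟩
  rw [Units.val_mul, map_mul, zpow_add₀ (am_ne hϖ)]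
  ring

theorem Ord.pow {μ : M} {m : ℤ} (h : Ord R μ m) (a : ℕ) : Ord R (μ ^ a) (a * m) := by
  obtain ⟨ϖ, hϖ⟩ := IsDiscreteValuationRing.exists_irreducible R
  obtain ⟨u, rfl⟩ := h.of hϖ
  refine ⟨u ^ a, ϖ, hϖ, ?_⟩
  rw [Units.val_pow_eq_pow_val, map_pow, mul_pow, mul_comm (a : ℤ) m, zpow_mul, zpow_natCast]

theorem uniq_aux {ϖ : R} (hϖ : Irreducible ϖ) {u v : Rˣ} {m n : ℤ}
    (h : algebraMap R M u * algebraMap R M ϖ ^ m = algebraMap R M v * algebraMap R M ϖ ^ n) :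
    m ≤ n := by
  by_contra hlt
  push Not at hlt
  obtain ⟨k, hk⟩ : ∃ k : ℕ, m = n + k := ⟨(m - n).toNat, by omega⟩
  have hk0 : k ≠ 0 := by omega
  rw [hk, zpow_add₀ (am_ne hϖ), zpow_natCast] at h
  have hn : algebraMap R M ϖ ^ n ≠ 0 := zpow_ne_zero _ (am_ne hϖ)
  have h2 : algebraMap R M (u * ϖ ^ k) = algebraMap R M v := by
    rw [map_mul, map_pow]
    apply mul_right_cancel₀ hn
    rw [← h]; ring
  have h3 : (u : R) * ϖ ^ k = v := IsFractionRing.injective R M h2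
  have h4 : IsUnit (ϖ ^ k) := isUnit_of_mul_isUnit_right (h3 ▸ v.isUnit)
  rw [isUnit_pow_iff hk0] at h4
  exact hϖ.not_isUnit h4

theorem Ord.uniq {μ : M} {m n : ℤ} (h : Ord R μ m) (k : Ord R μ n) : m = n := by
  obtain ⟨ϖ, hϖ⟩ := IsDiscreteValuationRing.exists_irreducible R
  obtain ⟨u, hu⟩ := h.of hϖ
  obtain ⟨v, hv⟩ := k.of hϖ
  rw [hu] at hv
  exact le_antisymm (uniq_aux hϖ hv) (uniq_aux hϖ hv.symm)

theorem exists_ord_am {r : R} (hr : r ≠ 0) : ∃ m : ℤ, Ord R (algebraMap R M r) m := by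
  obtain ⟨ϖ, hϖ⟩ := IsDiscreteValuationRing.exists_irreducible R
  obtain ⟨n, u, hu⟩ := IsDiscreteValuationRing.eq_unit_mul_pow_irreducible hr hϖ
  refine ⟨n, u, ϖ, hϖ, ?_⟩
  rw [hu, map_mul, map_pow, zpow_natCast]

theorem exists_ord {μ : M} (h : μ ≠ 0) : ∃ m : ℤ, Ord R μ m := by
  obtain ⟨x, y, hy, rfl⟩ := IsFractionRing.div_surjective (A := R) μ
  have hy0 : y ≠ 0 := nonZeroDivisors.ne_zero hy
  have hx0 : x ≠ 0 := by
    rintro rfl
    exact h (by simp)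
  obtain ⟨m, hm⟩ := exists_ord_am (M := M) hx0
  obtain ⟨n, hn⟩ := exists_ord_am (M := M) hy0
  obtain ⟨ϖ, hϖ⟩ := IsDiscreteValuationRing.exists_irreducible R
  obtain ⟨u, hu⟩ := hm.of hϖ
  obtain ⟨v, hv⟩ := hn.of hϖ
  refine ⟨m - n, u * v⁻¹, ϖ, hϖ, ?_⟩
  have hv' : algebraMap R M ((v⁻¹ : Rˣ) : R) = (algebraMap R M v)⁻¹ := by
    have := am_zpow (M := M) v (-1)
    simpa using this
  rw [hu, hv, Units.val_mul, map_mul, hv', zpow_sub₀ (am_ne hϖ)]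
  have h1 := am_unit (M := M) v
  have h2 : algebraMap R M ϖ ^ n ≠ 0 := zpow_ne_zero _ (am_ne hϖ)
  field_simp

end Ord

section Gal

variable {M E : Type} [Field M] [Field E] [Algebra M E] [FiniteDimensional M E] [IsGalois M E]

theorem smul_val (γ : E ≃ₐ[M] E) (x : Eˣ) : ((γ • x : Eˣ) : E) = γ (x : E) := rfl

theorem fixed (x : Eˣ) (h : ∀ γ : E ≃ₐ[M] E, γ • x = x) :
    ∃ μ : M, μ ≠ 0 ∧ algebraMap M E μ = x := by
  have h1 : (x : E) ∈ Set.range (algebraMap M E) := by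
    rw [IsGalois.mem_range_algebraMap_iff_fixed]
    intro γ
    rw [← smul_val, h γ]
  obtain ⟨μ, hμ⟩ := h1
  refine ⟨μ, ?_, hμ⟩
  rintro rfl
  rw [map_zero] at hμ
  exact x.ne_zero hμ.symm

end Gal

section Main

variable {R M E : Type} [CommRing R] [IsDomain R] [IsDiscreteValuationRing R] [Field M]
  [Algebra R M] [IsFractionRing R M] [Field E] [Algebra M E] [FiniteDimensional M E]
  [IsGalois M E] {g : ℕ} (act : (E ≃ₐ[M] E) →* AddMonoid.End (Lat g)) (χ : Lat g) (a : ℕ)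
  (η : (E ≃ₐ[M] E) → Lat g)

/-- The data attached to `ψ`. -/
def Dat (R : Type) [CommRing R] [Algebra R M] (ψ : EqHom act Eˣ) (τ : Eˣ) (μ : M) (m : ℤ) :
    Prop :=
  (∀ γ : E ≃ₐ[M] E, γ • τ =
    (ψ : Multiplicative (Lat g) →* Eˣ) (Multiplicative.ofAdd (η γ)) * τ) ∧
  (((ψ : Multiplicative (Lat g) →* Eˣ) (Multiplicative.ofAdd χ) : Eˣ) : E) =
    algebraMap M E μ * (τ : E) ^ a ∧ Ord R μ m

include act χ a η

theorem eta_coc (ha : 0 < a) (h : ∀ γ, act γ χ = χ + a • η γ) (γ δ : E ≃ₐ[M] E) :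
    η (γ * δ) = η γ + act γ (η δ) := by
  have h1 : act (γ * δ) χ = act γ (act δ χ) := by
    rw [map_mul]; rfl
  rw [h, h δ, map_add, h γ, map_nsmul, add_assoc, add_right_inj, ← smul_add] at h1
  have ha' : (a : ℕ) ≠ 0 := ha.ne'
  exact nsmul_right_injective ha' h1

theorem coc (ha : 0 < a) (h : ∀ γ, act γ χ = χ + a • η γ) (ψ : EqHom act Eˣ)
    (γ δ : E ≃ₐ[M] E) :
    (ψ : Multiplicative (Lat g) →* Eˣ) (Multiplicative.ofAdd (η (γ * δ))) =
      γ • (ψ : Multiplicative (Lat g) →* Eˣ) (Multiplicative.ofAdd (η δ)) *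
        (ψ : Multiplicative (Lat g) →* Eˣ) (Multiplicative.ofAdd (η γ)) := by
  rw [eta_coc act χ a η ha h, ofAdd_add, map_mul, ψ.2 γ (η δ), mul_comm]

theorem dat_exists (ha : 0 < a) (h : ∀ γ, act γ χ = χ + a • η γ) (ψ : EqHom act Eˣ) :
    ∃ (τ : Eˣ) (μ : M) (m : ℤ), Dat act χ a η R ψ τ μ m := by
  obtain ⟨τ, hτ⟩ := groupCohomology.isMulCoboundary₁_of_isMulCocycle₁_of_aut_to_units
    (K := M) (L := E)
    (fun γ => (ψ : Multiplicative (Lat g) →* Eˣ) (Multiplicative.ofAdd (η γ)))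
    (fun γ δ => coc act χ a η ha h ψ γ δ)
  have hτ' : ∀ γ : E ≃ₐ[M] E, γ • τ =
      (ψ : Multiplicative (Lat g) →* Eˣ) (Multiplicative.ofAdd (η γ)) * τ := by
    intro γ
    have := hτ γ
    rw [div_eq_iff_eq_mul] at this
    exact this
  obtain ⟨μ, hμ0, hμ⟩ := fixed (M := M)
    ((ψ : Multiplicative (Lat g) →* Eˣ) (Multiplicative.ofAdd χ) / τ ^ a) (by
      intro γ
      rw [smul_div', smul_pow', hτ', ψ.2 γ χ, h γ, ofAdd_add, map_mul, ofAdd_nsmul, map_pow,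
        mul_pow, mul_div_mul_comm, div_mul_div_cancel])
  obtain ⟨m, hm⟩ := exists_ord (R := R) hμ0
  refine ⟨τ, μ, m, hτ', ?_, hm⟩
  rw [hμ, Units.val_div_eq_div_val, Units.val_pow_eq_pow_val]
  have : (τ : E) ^ a ≠ 0 := pow_ne_zero _ τ.ne_zero
  field_simp

theorem dat_uniq {ψ : EqHom act Eˣ} {τ τ' : Eˣ} {μ μ' : M} {m m' : ℤ}
    (h1 : Dat act χ a η R ψ τ μ m) (h2 : Dat act χ a η R ψ τ' μ' m') :
    (m : ZMod a) = (m' : ZMod a) := by
  obtain ⟨ν, hν0, hν⟩ := fixed (M := M) (τ / τ') (by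
    intro γ
    rw [smul_div', h1.1, h2.1, mul_div_mul_left_eq_div])
  obtain ⟨n, hn⟩ := exists_ord (R := R) hν0
  have e1 : (τ : E) = algebraMap M E ν * τ' := by
    rw [hν, Units.val_div_eq_div_val]
    have := τ'.ne_zero
    field_simp
  have e2 : algebraMap M E (μ * ν ^ a) = algebraMap M E μ' := by
    have h3 := h1.2.1
    rw [h2.2.1, e1, mul_pow] at h3
    have : (τ' : E) ^ a ≠ 0 := pow_ne_zero _ τ'.ne_zero
    apply mul_right_cancel₀ this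
    rw [h3, map_mul, map_pow]; ring
  have e3 : μ * ν ^ a = μ' := (algebraMap M E).injective e2
  have h4 := h1.2.2.mul (hn.pow a)
  rw [e3] at h4
  have h5 := h4.uniq h2.2.2
  rw [← h5]
  push_cast
  simp

omit [FiniteDimensional M E] [IsGalois M E] in
theorem dat_mul {ψ ψ' : EqHom act Eˣ} {τ τ' : Eˣ} {μ μ' : M} {m m' : ℤ}
    (h1 : Dat act χ a η R ψ τ μ m) (h2 : Dat act χ a η R ψ' τ' μ' m') :
    Dat act χ a η R (ψ * ψ') (τ * τ') (μ * μ') (m + m') := by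
  refine ⟨fun γ => ?_, ?_, h1.2.2.mul h2.2.2⟩
  · rw [smul_mul', h1.1, h2.1]
    simp only [Subgroup.coe_mul, MonoidHom.mul_apply]
    rw [mul_mul_mul_comm]
  · simp only [Subgroup.coe_mul, MonoidHom.mul_apply, Units.val_mul]
    rw [h1.2.1, h2.2.1, map_mul, mul_pow]; ring

end Main

theorem dhom : DHOM := by
  intro R M E _ _ _ _ _ _ _ _ _ _ g act χ a η ha h
  choose τ μ m hd using dat_exists (R := R) act χ a η ha h
  refine ⟨MonoidHom.mk' (fun ψ => Multiplicative.ofAdd ((m ψ : ℤ) : ZMod a)) ?_, ?_⟩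
  · intro ψ ψ'
    rw [← ofAdd_add, ← Int.cast_add]
    congr 1
    exact dat_uniq act χ a η (hd (ψ * ψ')) (dat_mul act χ a η (hd ψ) (hd ψ'))
  · intro ψ t u π k hπ h1 h2
    show Multiplicative.ofAdd ((m ψ : ℤ) : ZMod a) = _
    congr 1
    exact dat_uniq act χ a η (hd ψ) (show Dat act χ a η R ψ t _ k from ⟨h1, h2, u, π, hπ, rfl⟩)

end Pool.Agent.Helper6.Nm
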